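import Mathlib

/-!
# Job HT-GRO (helper209): growth of `L (n + 1) = 4 * L n + M n`
-/

namespace Pool.Agent.Y37.HTGRO

theorem tele (e : ℕ) (x : ℝ) (hx : 0 ≤ x) :
    (x + 1) ^ (e + 1) ≤ x ^ (e + 1) + ((e : ℝ) + 1) * (x + 1) ^ e := by
  induction e with
  | zero => simp
  | succ e ih =>
    have h1 : (x + 1) ^ (e + 1 + 1) = x * (x + 1) ^ (e + 1) + (x + 1) ^ (e + 1) := by ring
    have h2 := mul_le_mul_of_nonneg_left ih hx
    have h3 : x * (((e : ℝ) + 1) * (x + 1) ^ e) ≤ ((e : ℝ) + 1) * (x + 1) ^ (e + 1) := by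
      have h4 : x * (x + 1) ^ e ≤ (x + 1) ^ (e + 1) := by
        rw [pow_succ (x + 1) e, mul_comm x]
        exact mul_le_mul_of_nonneg_left (by linarith) (by positivity)
      have h5 := mul_le_mul_of_nonneg_left h4 (by positivity : (0 : ℝ) ≤ (e : ℝ) + 1)
      linarith [h5]
    rw [h1]
    push_cast
    have h6 : x * (x ^ (e + 1) + ((e : ℝ) + 1) * (x + 1) ^ e)
      = x ^ (e + 1 + 1) + x * (((e : ℝ) + 1) * (x + 1) ^ e) := by ring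
    rw [h6] at h2
    linarith

theorem t_GRO (e : ℕ) (L M : ℕ → ℝ) (hL : ∀ n, L (n + 1) = 4 * L n + M n) (hM : ∀ n, 0 ≤ M n)
    (hL0 : ∀ n, 0 ≤ L n) (c C : ℝ) (hc : 0 < c) (hC : 0 < C) (n₀ : ℕ)
    (h : ∀ n ≥ n₀, c * ((4 : ℝ) ^ n * (n : ℝ) ^ e) ≤ M n ∧
      M n ≤ C * ((4 : ℝ) ^ n * (n : ℝ) ^ e)) :
    ∃ c' C' : ℝ, 0 < c' ∧ 0 < C' ∧ ∃ n₁ : ℕ, ∀ n ≥ n₁,
      c' * ((4 : ℝ) ^ n * (n : ℝ) ^ (e + 1)) ≤ L n ∧
      L n ≤ C' * ((4 : ℝ) ^ n * (n : ℝ) ^ (e + 1)) := by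
  have _ := hM
  obtain ⟨N, hN0, hN1⟩ : ∃ N : ℕ, n₀ ≤ N ∧ 1 ≤ N :=
    ⟨max n₀ 1, le_max_left _ _, le_max_right _ _⟩
  -- upper bound
  have hup : ∀ n ≥ N, L n ≤ (L N + C) * ((4 : ℝ) ^ n * (n : ℝ) ^ (e + 1)) := by
    intro n hn
    induction n, hn using Nat.le_induction with
    | base =>
      have h1 : (1 : ℝ) ≤ (4 : ℝ) ^ N * (N : ℝ) ^ (e + 1) := by
        have h2 : (1 : ℝ) ≤ (4 : ℝ) ^ N := one_le_pow₀ (by norm_num)
        have h3 : (1 : ℝ) ≤ (N : ℝ) ^ (e + 1) := one_le_pow₀ (by exact_mod_cast hN1)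
        nlinarith
      have h4 := mul_le_mul_of_nonneg_left h1 (by linarith [hL0 N] : (0 : ℝ) ≤ L N + C)
      linarith
    | succ n hn ih =>
      have h1 := (h n (le_trans hN0 hn)).2
      have hx : (0 : ℝ) ≤ (n : ℝ) := Nat.cast_nonneg n
      have h2 : (n : ℝ) ^ (e + 1) + (n : ℝ) ^ e ≤ ((n : ℝ) + 1) ^ (e + 1) := by
        have h3 : (n : ℝ) ^ e ≤ ((n : ℝ) + 1) ^ e := pow_le_pow_left₀ hx (by linarith) e
        have h4 := mul_le_mul_of_nonneg_left h3 (by linarith : (0 : ℝ) ≤ (n : ℝ) + 1)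
        calc (n : ℝ) ^ (e + 1) + (n : ℝ) ^ e = ((n : ℝ) + 1) * (n : ℝ) ^ e := by ring
          _ ≤ ((n : ℝ) + 1) * ((n : ℝ) + 1) ^ e := h4
          _ = ((n : ℝ) + 1) ^ (e + 1) := by ring
      have hK : (0 : ℝ) ≤ L N + C := by linarith [hL0 N]
      have h5 : (0 : ℝ) ≤ (4 : ℝ) ^ n := by positivity
      have h6 := mul_le_mul_of_nonneg_left h2 (mul_nonneg hK h5)
      have h7 : C * ((4 : ℝ) ^ n * (n : ℝ) ^ e) ≤ 4 * ((L N + C) * ((4 : ℝ) ^ n * (n : ℝ) ^ e)) := by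
        have h8 : (0 : ℝ) ≤ (4 : ℝ) ^ n * (n : ℝ) ^ e := by positivity
        have h9 := mul_nonneg (hL0 N) h8
        have h10 := mul_nonneg hC.le h8
        nlinarith
      rw [hL n]
      push_cast
      have h11 : (L N + C) * ((4 : ℝ) ^ (n + 1) * ((n : ℝ) + 1) ^ (e + 1))
        = 4 * ((L N + C) * (4 : ℝ) ^ n * ((n : ℝ) + 1) ^ (e + 1)) := by ring
      rw [h11]
      have h12 : (L N + C) * (4 : ℝ) ^ n * ((n : ℝ) ^ (e + 1) + (n : ℝ) ^ e)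
        = (L N + C) * ((4 : ℝ) ^ n * (n : ℝ) ^ (e + 1)) + (L N + C) * ((4 : ℝ) ^ n * (n : ℝ) ^ e) := by
        ring
      rw [h12] at h6
      linarith
  -- lower bound
  have he : (0 : ℝ) < 4 * ((e : ℝ) + 1) * 2 ^ e := by positivity
  obtain ⟨c1, hc1, hc1'⟩ : ∃ c1 : ℝ, 0 < c1 ∧ c1 * (4 * ((e : ℝ) + 1) * 2 ^ e) = c :=
    ⟨c / (4 * ((e : ℝ) + 1) * 2 ^ e), by positivity, by field_simp⟩
  have hlow : ∀ n ≥ N, c1 * ((4 : ℝ) ^ n * ((n : ℝ) ^ (e + 1) - (N : ℝ) ^ (e + 1))) ≤ L n := by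
    intro n hn
    induction n, hn using Nat.le_induction with
    | base => simpa using hL0 N
    | succ n hn ih =>
      have h1 := (h n (le_trans hN0 hn)).1
      have hn1 : (1 : ℝ) ≤ (n : ℝ) := by exact_mod_cast le_trans hN1 hn
      have hx : (0 : ℝ) ≤ (n : ℝ) := Nat.cast_nonneg n
      have h2 := tele e (n : ℝ) hx
      have h3 : ((n : ℝ) + 1) ^ e ≤ 2 ^ e * (n : ℝ) ^ e := by
        rw [← mul_pow]
        exact pow_le_pow_left₀ (by linarith) (by linarith) e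
      have h4 : ((n : ℝ) + 1) ^ (e + 1) ≤ (n : ℝ) ^ (e + 1) + ((e : ℝ) + 1) * (2 ^ e * (n : ℝ) ^ e) :=
        h2.trans (by
          have := mul_le_mul_of_nonneg_left h3 (by positivity : (0 : ℝ) ≤ (e : ℝ) + 1)
          linarith)
      have h5 : (0 : ℝ) ≤ c1 * (4 : ℝ) ^ n := by positivity
      have h6 := mul_le_mul_of_nonneg_left h4 h5
      rw [hL n]
      push_cast
      have h7 : c * ((4 : ℝ) ^ n * (n : ℝ) ^ e)
        = 4 * (c1 * (4 : ℝ) ^ n * (((e : ℝ) + 1) * (2 ^ e * (n : ℝ) ^ e))) := by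
        rw [← hc1']; ring
      rw [h7] at h1
      have h8 : c1 * ((4 : ℝ) ^ (n + 1) * (((n : ℝ) + 1) ^ (e + 1) - (N : ℝ) ^ (e + 1)))
        = 4 * (c1 * (4 : ℝ) ^ n * ((n : ℝ) + 1) ^ (e + 1))
          - 4 * (c1 * (4 : ℝ) ^ n * (N : ℝ) ^ (e + 1)) := by ring
      have h9 : c1 * ((4 : ℝ) ^ n * ((n : ℝ) ^ (e + 1) - (N : ℝ) ^ (e + 1)))
        = c1 * (4 : ℝ) ^ n * (n : ℝ) ^ (e + 1) - c1 * (4 : ℝ) ^ n * (N : ℝ) ^ (e + 1) := by ring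
      rw [h9] at ih
      rw [h8]
      have h10 : c1 * (4 : ℝ) ^ n * ((n : ℝ) ^ (e + 1) + ((e : ℝ) + 1) * (2 ^ e * (n : ℝ) ^ e))
        = c1 * (4 : ℝ) ^ n * (n : ℝ) ^ (e + 1)
          + c1 * (4 : ℝ) ^ n * (((e : ℝ) + 1) * (2 ^ e * (n : ℝ) ^ e)) := by ring
      rw [h10] at h6
      linarith
  refine ⟨c1 / 2, L N + C, by positivity, by linarith [hL0 N], 2 * N, fun n hn => ⟨?_, ?_⟩⟩
  · have h1 := hlow n (by omega)
    refine le_trans ?_ h1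
    have hn2 : 2 * (N : ℝ) ≤ (n : ℝ) := by exact_mod_cast hn
    have hNr : (0 : ℝ) ≤ (N : ℝ) := Nat.cast_nonneg N
    have h2 : (N : ℝ) ^ (e + 1) ≤ (n : ℝ) ^ (e + 1) / 2 := by
      have h3 : (2 * (N : ℝ)) ^ (e + 1) ≤ (n : ℝ) ^ (e + 1) :=
        pow_le_pow_left₀ (by linarith) hn2 _
      rw [mul_pow] at h3
      have h4 : (2 : ℝ) ≤ 2 ^ (e + 1) := by
        rw [pow_succ]
        have : (1 : ℝ) ≤ 2 ^ e := one_le_pow₀ (by norm_num)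
        linarith
      have h5 : (0 : ℝ) ≤ (N : ℝ) ^ (e + 1) := by positivity
      have h6 := mul_le_mul_of_nonneg_right h4 h5
      linarith
    have h7 : (0 : ℝ) ≤ c1 * (4 : ℝ) ^ n := by positivity
    have h8 := mul_le_mul_of_nonneg_left h2 h7
    have h9 : c1 / 2 * ((4 : ℝ) ^ n * (n : ℝ) ^ (e + 1)) = c1 * (4 : ℝ) ^ n * ((n : ℝ) ^ (e + 1) / 2) := by
      ring
    have h10 : c1 * ((4 : ℝ) ^ n * ((n : ℝ) ^ (e + 1) - (N : ℝ) ^ (e + 1)))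
      = 2 * (c1 * (4 : ℝ) ^ n * ((n : ℝ) ^ (e + 1) / 2)) - c1 * (4 : ℝ) ^ n * (N : ℝ) ^ (e + 1) := by
      ring
    rw [h9, h10]
    linarith
  · exact hup n (by omega)

end Pool.Agent.Y37.HTGRO
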